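import Mathlib
import Pool.Agent.R204.DSQ.Asm
import Pool.Agent.R204.DSQ.Wst
import Pool.Agent.R204.DSQ.Tv
import Pool.Agent.R204.DSQ.Geo
import Pool.Agent.R204.DSQ.Hyp204
import Pool.Agent.R204.DSQ.Vin
import Pool.Agent.R204.DSQ.Min
import Pool.Agent.R204.DSQ.Nq
import Pool.Agent.R204.DSQ.Quu
import Pool.Agent.R204.DSQ.Asy
import Pool.Agent.R204.DSQ.Maj
import Pool.Agent.R204.DSQ.Ba1
import Pool.Agent.R204.DSQ.Ba2
import Pool.Agent.R204.DSQ.Ba3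
import Pool.Agent.R204.DSQ.Sum
import Pool.Agent.R204.DSQ.Comb
import Pool.Agent.R204.DSQ.Tr1
import Pool.Agent.R204.DSQ.Tr2

/-!
MP_d5c55f_an, Question 1, affirmative answer with a universal constant: the square function of the
divisor weighted ergodic averages along any increasing sequence is bounded on `L^2`.
-/

namespace Pool.Agent.Results.MP_d5c55f_an.DivisorSquareFunction

open MeasureTheory Pool.Agent.R204.DSQ

universe u

/-- the divisor weighted average `A_n f = W_n^{-1} ∑_{k=1}^n d(k) f ∘ τ^k`, `W_n = ∑_{k=1}^n d(k)` -/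
noncomputable def A {Ω : Type u} (τ : Ω → Ω) (n : ℕ) (f : Ω → ℂ) (x : Ω) : ℂ :=
  (∑ k ∈ Finset.Icc 1 n, ((Nat.divisors k).card : ℂ) * f (τ^[k] x)) /
    (∑ k ∈ Finset.Icc 1 n, ((Nat.divisors k).card : ℂ))

theorem A_eq {Ω : Type u} (τ : Ω → Ω) (n : ℕ) (f : Ω → ℂ) (x : Ω) : A τ n f x = Avg τ f n x := by
  unfold A Avg W dv
  push_cast
  rfl

theorem result :
    ∃ C : ℝ, 0 < C ∧ ∀ (Ω : Type u) [MeasurableSpace Ω] (μ : Measure Ω) [IsProbabilityMeasure μ]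
      (τ : Ω → Ω), MeasurePreserving τ μ μ →
      ∀ N : ℕ → ℕ, StrictMono N → 1 ≤ N 0 →
      ∀ f : Ω → ℂ, MemLp f 2 μ →
      ∫⁻ x, ∑' j : ℕ, ‖A τ (N (j + 1)) f x - A τ (N j) f x‖ₑ ^ 2 ∂μ
        ≤ ENNReal.ofReal C * ∫⁻ x, ‖f x‖ₑ ^ 2 ∂μ := by
  have hMin : MinSt := min_st w_st geo_st hyp_st vin_st
  have hAsy : AsySt := asy_st geo_st hyp_st nq_st qq_st
  have hMaj : MajSt := maj_st w_st hAsy
  have hSum : SumSt := sum_st ba1_st ba2_st ba3_st
  have hT : TR2St.{u} := tr2_st tr1_st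
  obtain ⟨C, hC, h⟩ := assembled w_st (tv_st w_st) hMin hMaj hSum comb_st hT
  refine ⟨C, hC, ?_⟩
  intro Ω _ μ _ τ hτ N hN hN0 f hf
  have := h Ω μ τ hτ N hN hN0 f hf
  simpa only [A_eq] using this

end Pool.Agent.Results.MP_d5c55f_an.DivisorSquareFunction
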